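import Mathlib
import Pool.Agent.Helper35.HC.StB
import Pool.Agent.Helper33.HSF.M_GCH

/-!
Project HC (MP_925021_gt), module CPP: the values `|A(P,Q)|²` form a compact set and can be continued in time.
-/

set_option autoImplicit false

namespace Helper2.HC

open Helper35.HC Helper35.HSF Helper35.MS Helper35.PI Helper35.PI2 Helper32.CL
open scoped ContDiff Manifold Topology ENNReal BigOperators
open MeasureTheory Set Filter

section CPP

variable {n N : ℕ}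

private lemma sum2b {V : Type} [AddCommGroup V] [Module ℝ V] (J : Matrix (Fin n) (Fin n) ℝ)
    (U W : Fin n → ℝ) (X Y : Fin n → Fin n → V)
    (h : ∀ i j, X i j = ∑ a, ∑ b, (J i a * J j b) • Y a b) :
    ∑ i, ∑ j, (U i * W j) • X i j
      = ∑ a, ∑ b, (Matrix.vecMul U J a * Matrix.vecMul W J b) • Y a b := by
  simp_rw [h]
  have h1 := Helper67.PI.contr (Matrix.vecMulVec U W) J Y
  simp only [Matrix.vecMulVec_apply] at h1
  rw [h1, Matrix.mul_vecMulVec, Matrix.vecMulVec_mul]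
  simp only [Matrix.vecMulVec_apply, Matrix.mulVec_transpose]

/-- coefficients of unit vectors in converging frames converge along an ultrafilter -/
private lemma coef {ι : Type} (U : Ultrafilter ι) (X : ι → Fin n → EE N) (X₀ : Fin n → EE N)
    (hX : ∀ a, Tendsto (fun i => X i a) U (𝓝 (X₀ a))) (hLI : LinearIndependent ℝ X₀)
    (c : ι → Fin n → ℝ) (hc : ∀ᶠ i in (U : Filter ι), ‖∑ a, c i a • X i a‖ = 1) :
    ∃ c₀ : Fin n → ℝ, Tendsto c U (𝓝 c₀) := by
  set f : (Fin n → ℝ) →ₗ[ℝ] EE N := Fintype.linearCombination ℝ X₀ with hf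
  have hfa : ∀ v, f v = ∑ a, v a • X₀ a := fun v => by
    rw [hf, Fintype.linearCombination_apply]
  have hker : LinearMap.ker f = ⊥ := by
    rw [LinearMap.ker_eq_bot']
    intro v hv
    rw [hfa] at hv
    funext i
    exact Fintype.linearIndependent_iff.1 hLI v hv i
  obtain ⟨K, hK, hA⟩ := f.exists_antilipschitzWith hker
  have hK' : (0 : ℝ) < K := by exact_mod_cast hK
  have hlow : ∀ v, ‖v‖ ≤ K * ‖f v‖ := fun v => by
    have := hA.le_mul_dist v 0
    rwa [map_zero, dist_zero_right, dist_zero_right] at this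
  have hS : Tendsto (fun i => ∑ a, ‖X i a - X₀ a‖) (U : Filter ι) (𝓝 0) := by
    have h1 : Tendsto (fun i => ∑ a, ‖X i a - X₀ a‖) (U : Filter ι) (𝓝 (∑ a : Fin n, (0 : ℝ))) := by
      refine tendsto_finsetSum _ fun a _ => ?_
      have h2 := ((hX a).sub_const (X₀ a)).norm
      rwa [sub_self, norm_zero] at h2
    rwa [Finset.sum_const_zero] at h1
  have hS' : ∀ᶠ i in (U : Filter ι), ∑ a, ‖X i a - X₀ a‖ < 1 / (2 * K) :=
    hS.eventually (gt_mem_nhds (by positivity))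
  have hb : ∀ᶠ i in (U : Filter ι), c i ∈ Metric.closedBall (0 : Fin n → ℝ) (2 * K) := by
    filter_upwards [hc, hS'] with i h1 h2
    rw [mem_closedBall_zero_iff]
    have h3 : f (c i) = ∑ a, c i a • X i a - ∑ a, c i a • (X i a - X₀ a) := by
      rw [hfa, ← Finset.sum_sub_distrib]
      refine Finset.sum_congr rfl fun a _ => ?_
      rw [smul_sub]
      abel
    have h4 : ‖∑ a, c i a • (X i a - X₀ a)‖ ≤ ‖c i‖ * ∑ a, ‖X i a - X₀ a‖ := by
      rw [Finset.mul_sum]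
      refine (norm_sum_le _ _).trans (Finset.sum_le_sum fun a _ => ?_)
      rw [norm_smul]
      exact mul_le_mul_of_nonneg_right (norm_le_pi_norm (c i) a) (norm_nonneg _)
    have h5 : ‖f (c i)‖ ≤ 1 + ‖c i‖ * (1 / (2 * K)) := by
      rw [h3]
      refine (norm_sub_le _ _).trans (add_le_add h1.le (h4.trans ?_))
      exact mul_le_mul_of_nonneg_left h2.le (norm_nonneg _)
    have h6 := hlow (c i)
    have h7 : K * ‖f (c i)‖ ≤ K * (1 + ‖c i‖ * (1 / (2 * K))) :=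
      mul_le_mul_of_nonneg_left h5 hK'.le
    have h8 : (K : ℝ) * (1 + ‖c i‖ * (1 / (2 * K))) = K + ‖c i‖ / 2 := by
      field_simp
    linarith
  obtain ⟨c₀, -, hc₀⟩ := (isCompact_closedBall (0 : Fin n → ℝ) (2 * K)).ultrafilter_le_nhds
    (U.map c) (by
      rw [le_principal_iff]
      exact hb)
  exact ⟨c₀, hc₀⟩

variable {M : Type} [TopologicalSpace M] [ChartedSpace (EE n) M] [IsManifold (𝓡 n) ∞ M]

/-- continuity of the frame and of the second fundamental form in the chart at `x₀` -/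
private lemma cont (hI2J : StI2J) (hSM : Helper35.PI.StSM) {J : Set ℝ} {F : M → ℝ → EE N}
    (hF : IsImmJ (n := n) J F) (x₀ : M) {t₀ : ℝ} (ht₀ : t₀ ∈ J) :
    (∀ a, ContinuousAt (fun z : EE n × ℝ => dv1 (loc (n := n) F x₀ z.2) z.1 a)
      (chartAt (EE n) x₀ x₀, t₀)) ∧
    ∀ a b, ContinuousAt (fun z : EE n × ℝ => sff (loc (n := n) F x₀ z.2) z.1 a b)
      (chartAt (EE n) x₀ x₀, t₀) := by
  have hs : ContDiffAt ℝ ∞ (fun z : EE n × ℝ => F ((chartAt (EE n) x₀).symm z.1) z.2)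
      (chartAt (EE n) x₀ x₀, t₀) :=
    (hI2J n N M J F hF x₀).contDiffAt
      (((chartAt (EE n) x₀).open_target.prod hF.op).mem_nhds
        ⟨(chartAt (EE n) x₀).map_source (mem_chart_source (EE n) x₀), ht₀⟩)
  obtain ⟨h1, h2, -, -, -, -, h3, -⟩ := hSM n N _ _ hs (hF.imm x₀ t₀ ht₀)
  refine ⟨fun a => ?_, fun a b => (h3 a b).continuousAt⟩
  refine (h2 a).continuousAt.congr ?_
  filter_upwards [h1] with z hz
  exact (hz.2.2.1 a).symm

/-- coordinates in the chart at `x₀` -/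
private lemma coords (hI2J : StI2J) (hNR : StNR) {J : Set ℝ} {F : M → ℝ → EE N}
    (hF : IsImmJ (n := n) J F) (x₀ q : M) {t : ℝ} (ht : t ∈ J)
    (hq : q ∈ (chartAt (EE n) x₀).source) (c d : Fin n → ℝ) :
    ∃ c' d' : Fin n → ℝ,
      tv F q t c = ∑ a, c' a • dv1 (loc (n := n) F x₀ t) (chartAt (EE n) x₀ q) a ∧
      tv F q t d = ∑ a, d' a • dv1 (loc (n := n) F x₀ t) (chartAt (EE n) x₀ q) a ∧
      Ab F q t c d
        = ∑ a, ∑ b, (c' a * d' b) • sff (loc (n := n) F x₀ t) (chartAt (EE n) x₀ q) a b := by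
  obtain ⟨h1, h2, h3⟩ := Helper33.HSF.trans x₀ q hq
  have hf : ContDiffAt ℝ ∞ (loc (n := n) F x₀ t)
      ((fun y => chartAt (EE n) x₀ ((chartAt (EE n) q).symm y)) (chartAt (EE n) q q)) := by
    simp only [h2]
    exact Helper33.HSF.locSmooth hI2J hF ht x₀ _ ((chartAt (EE n) x₀).map_source hq)
  obtain ⟨A, -, -, hA1, hA2, -⟩ := Helper33.HSF.rp hNR (loc (n := n) F x₀ t)
    (loc (n := n) F q t)
    (fun y => chartAt (EE n) x₀ ((chartAt (EE n) q).symm y)) (chartAt (EE n) q q)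
    (hf.of_le Helper33.HSF.two_le_top) (h1.of_le Helper33.HSF.two_le_top)
    (h3 fun m => F m t) (hF.imm q t ht)
  simp only [h2] at hA1 hA2
  exact ⟨Matrix.vecMul c A, Matrix.vecMul d A, Helper33.HSF.sum1 A c _ _ hA1,
    Helper33.HSF.sum1 A d _ _ hA1, sum2b A c d _ _ hA2⟩

end CPP

section CPP2

variable {n N : ℕ} {M : Type} [TopologicalSpace M] [ChartedSpace (EE n) M]
  [IsManifold (𝓡 n) ∞ M]

/-- passage to the limit, abstract form -/
private lemma limit {ι : Type} (U : Ultrafilter ι) (X : ι → Fin n → EE N) (X₀ : Fin n → EE N)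
    (Y : ι → Fin n → Fin n → EE N) (Y₀ : Fin n → Fin n → EE N)
    (hX : ∀ a, Tendsto (fun i => X i a) U (𝓝 (X₀ a)))
    (hY : ∀ a b, Tendsto (fun i => Y i a b) U (𝓝 (Y₀ a b)))
    (hLI : LinearIndependent ℝ X₀) (z : ι → ℝ) (c d : ι → Fin n → ℝ)
    (h : ∀ᶠ i in (U : Filter ι),
      (inner ℝ (∑ a, c i a • X i a) (∑ a, c i a • X i a) : ℝ) = 1 ∧
      (inner ℝ (∑ a, d i a • X i a) (∑ a, d i a • X i a) : ℝ) = 1 ∧
      (inner ℝ (∑ a, c i a • X i a) (∑ a, d i a • X i a) : ℝ) = 0 ∧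
      z i = ‖∑ a, ∑ b, (c i a * d i b) • Y i a b‖ ^ 2) :
    ∃ c₀ d₀ : Fin n → ℝ,
      (inner ℝ (∑ a, c₀ a • X₀ a) (∑ a, c₀ a • X₀ a) : ℝ) = 1 ∧
      (inner ℝ (∑ a, d₀ a • X₀ a) (∑ a, d₀ a • X₀ a) : ℝ) = 1 ∧
      (inner ℝ (∑ a, c₀ a • X₀ a) (∑ a, d₀ a • X₀ a) : ℝ) = 0 ∧
      Tendsto z U (𝓝 (‖∑ a, ∑ b, (c₀ a * d₀ b) • Y₀ a b‖ ^ 2)) := by
  have hn1 : ∀ v : EE N, (inner ℝ v v : ℝ) = 1 → ‖v‖ = 1 := by
    intro v hv
    rw [real_inner_self_eq_norm_sq] at hv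
    nlinarith [norm_nonneg v]
  obtain ⟨c₀, hc₀⟩ := coef U X X₀ hX hLI c (by
    filter_upwards [h] with p h1
    exact hn1 _ h1.1)
  obtain ⟨d₀, hd₀⟩ := coef U X X₀ hX hLI d (by
    filter_upwards [h] with p h1
    exact hn1 _ h1.2.1)
  have hca : ∀ a, Tendsto (fun p => c p a) U (𝓝 (c₀ a)) := fun a =>
    ((continuous_apply a).tendsto c₀).comp hc₀
  have hda : ∀ a, Tendsto (fun p => d p a) U (𝓝 (d₀ a)) := fun a =>
    ((continuous_apply a).tendsto d₀).comp hd₀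
  have hC : Tendsto (fun p => ∑ a, c p a • X p a) U (𝓝 (∑ a, c₀ a • X₀ a)) :=
    tendsto_finsetSum _ fun a _ => (hca a).smul (hX a)
  have hD : Tendsto (fun p => ∑ a, d p a • X p a) U (𝓝 (∑ a, d₀ a • X₀ a)) :=
    tendsto_finsetSum _ fun a _ => (hda a).smul (hX a)
  have hZ : Tendsto (fun p => ‖∑ a, ∑ b, (c p a * d p b) • Y p a b‖ ^ 2) U
      (𝓝 (‖∑ a, ∑ b, (c₀ a * d₀ b) • Y₀ a b‖ ^ 2)) :=
    (tendsto_finsetSum _ fun a _ => tendsto_finsetSum _ fun b _ =>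
      ((hca a).mul (hda b)).smul (hY a b)).norm.pow 2
  have hlim : ∀ (g : ι → ℝ) (r s : ℝ), Tendsto g U (𝓝 s) →
      (∀ᶠ p in (U : Filter ι), g p = r) → s = r := by
    intro g r s hg hr
    have h1 : Tendsto g U (𝓝 r) := tendsto_const_nhds.congr' (by
      filter_upwards [hr] with p hp
      exact hp.symm)
    exact tendsto_nhds_unique hg h1
  refine ⟨c₀, d₀, hlim _ 1 _ (hC.inner hC) (h.mono fun p hp => hp.1),
    hlim _ 1 _ (hD.inner hD) (h.mono fun p hp => hp.2.1),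
    hlim _ 0 _ (hC.inner hD) (h.mono fun p hp => hp.2.2.1), ?_⟩
  exact hZ.congr' (h.mono fun p hp => hp.2.2.2.symm)

private lemma cpt [CompactSpace M] (hI2J : StI2J) (hSM : Helper35.PI.StSM) (hNR : StNR)
    {J : Set ℝ} {F : M → ℝ → EE N} (hF : IsImmJ (n := n) J F) (t₁ t₂ : ℝ) (hJ : Icc t₁ t₂ ⊆ J) :
    IsCompact {p : (M × ℝ) × ℝ | p.1.2 ∈ Icc t₁ t₂ ∧ p.2 ∈ PSN n F p.1.1 p.1.2} := by
  rw [isCompact_iff_ultrafilter_le_nhds]
  intro U hU
  rw [le_principal_iff] at hU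
  have hUS : ∀ᶠ p : (M × ℝ) × ℝ in (U : Filter ((M × ℝ) × ℝ)),
      p.1.2 ∈ Icc t₁ t₂ ∧ p.2 ∈ PSN n F p.1.1 p.1.2 := hU
  obtain ⟨x₀, -, hx₀⟩ := isCompact_univ.ultrafilter_le_nhds
    (U.map (fun p : (M × ℝ) × ℝ => p.1.1)) (by simp)
  obtain ⟨t₀, ht₀, hct₀⟩ := (isCompact_Icc (a := t₁) (b := t₂)).ultrafilter_le_nhds
    (U.map (fun p : (M × ℝ) × ℝ => p.1.2)) (by
      rw [le_principal_iff]
      change ∀ᶠ p in (U : Filter ((M × ℝ) × ℝ)), p.1.2 ∈ Icc t₁ t₂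
      filter_upwards [hUS] with p hp
      exact hp.1)
  have hX : Tendsto (fun p : (M × ℝ) × ℝ => p.1.1) U (𝓝 x₀) := hx₀
  have hT : Tendsto (fun p : (M × ℝ) × ℝ => p.1.2) U (𝓝 t₀) := hct₀
  have htJ : t₀ ∈ J := hJ ht₀
  have hxs := mem_chart_source (EE n) x₀
  have hyT : Tendsto (fun p : (M × ℝ) × ℝ => ((chartAt (EE n) x₀ p.1.1, p.1.2) : EE n × ℝ)) U
      (𝓝 (chartAt (EE n) x₀ x₀, t₀)) :=
    (((chartAt (EE n) x₀).continuousAt hxs).tendsto.comp hX).prodMk_nhds hT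
  have hsrc : ∀ᶠ p in (U : Filter ((M × ℝ) × ℝ)), p.1.1 ∈ (chartAt (EE n) x₀).source :=
    hX.eventually ((chartAt (EE n) x₀).open_source.mem_nhds hxs)
  obtain ⟨hc1, hc2⟩ := cont hI2J hSM hF x₀ htJ
  -- the frames
  obtain ⟨X, hXd⟩ : ∃ X : (M × ℝ) × ℝ → Fin n → EE N, ∀ p a,
      X p a = dv1 (loc (n := n) F x₀ p.1.2) (chartAt (EE n) x₀ p.1.1) a := ⟨_, fun _ _ => rfl⟩
  obtain ⟨Y, hYd⟩ : ∃ Y : (M × ℝ) × ℝ → Fin n → Fin n → EE N, ∀ p a b,
      Y p a b = sff (loc (n := n) F x₀ p.1.2) (chartAt (EE n) x₀ p.1.1) a b :=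
    ⟨_, fun _ _ _ => rfl⟩
  obtain ⟨X₀, hX₀⟩ : ∃ X₀ : Fin n → EE N,
      X₀ = fun a => dv1 (loc (n := n) F x₀ t₀) (chartAt (EE n) x₀ x₀) a := ⟨_, rfl⟩
  obtain ⟨Y₀, hY₀⟩ : ∃ Y₀ : Fin n → Fin n → EE N,
      Y₀ = fun a b => sff (loc (n := n) F x₀ t₀) (chartAt (EE n) x₀ x₀) a b := ⟨_, rfl⟩
  have hXa : ∀ a, Tendsto (fun p => X p a) U (𝓝 (X₀ a)) := by
    intro a
    have h1 := Tendsto.comp (g := fun z : EE n × ℝ => dv1 (loc (n := n) F x₀ z.2) z.1 a)
      (f := fun p : (M × ℝ) × ℝ => ((chartAt (EE n) x₀ p.1.1, p.1.2) : EE n × ℝ))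
      (hc1 a) hyT
    rw [hX₀]
    refine h1.congr fun p => ?_
    rw [hXd]
    rfl
  have hYa : ∀ a b, Tendsto (fun p => Y p a b) U (𝓝 (Y₀ a b)) := by
    intro a b
    have h1 := Tendsto.comp (g := fun z : EE n × ℝ => sff (loc (n := n) F x₀ z.2) z.1 a b)
      (f := fun p : (M × ℝ) × ℝ => ((chartAt (EE n) x₀ p.1.1, p.1.2) : EE n × ℝ))
      (hc2 a b) hyT
    rw [hY₀]
    refine h1.congr fun p => ?_
    rw [hYd]
    rfl
  have hLI : LinearIndependent ℝ X₀ := by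
    rw [hX₀]
    exact hF.imm x₀ t₀ htJ
  -- coordinates
  have hex : ∀ p : (M × ℝ) × ℝ, ∃ cd : (Fin n → ℝ) × (Fin n → ℝ),
      (p.1.2 ∈ Icc t₁ t₂ ∧ p.2 ∈ PSN n F p.1.1 p.1.2) → p.1.1 ∈ (chartAt (EE n) x₀).source →
      (inner ℝ (∑ a, cd.1 a • X p a) (∑ a, cd.1 a • X p a) : ℝ) = 1 ∧
      (inner ℝ (∑ a, cd.2 a • X p a) (∑ a, cd.2 a • X p a) : ℝ) = 1 ∧
      (inner ℝ (∑ a, cd.1 a • X p a) (∑ a, cd.2 a • X p a) : ℝ) = 0 ∧
      p.2 = ‖∑ a, ∑ b, (cd.1 a * cd.2 b) • Y p a b‖ ^ 2 := by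
    intro p
    by_cases hp : (p.1.2 ∈ Icc t₁ t₂ ∧ p.2 ∈ PSN n F p.1.1 p.1.2) ∧
        p.1.1 ∈ (chartAt (EE n) x₀).source
    · obtain ⟨⟨hp1, c, d, hc, hd, hcd, hz⟩, hps⟩ := hp
      obtain ⟨c', d', h1, h2, h3⟩ := coords hI2J hNR hF x₀ p.1.1 (hJ hp1) hps c d
      refine ⟨(c', d'), fun _ _ => ?_⟩
      unfold gb at hc hd hcd
      rw [h1] at hc hcd
      rw [h2] at hd hcd
      rw [h3] at hz
      simp only [hXd, hYd]
      exact ⟨hc, hd, hcd, hz⟩
    · exact ⟨(0, 0), fun h1 h2 => (hp ⟨h1, h2⟩).elim⟩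
  choose cd hcd using hex
  obtain ⟨c₀, d₀, k1, k2, k3, k4⟩ := limit U X X₀ Y Y₀ hXa hYa hLI (fun p => p.2)
    (fun p => (cd p).1) (fun p => (cd p).2) (by
      filter_upwards [hUS, hsrc] with p h1 h2
      exact hcd p h1 h2)
  refine ⟨((x₀, t₀), ‖∑ a, ∑ b, (c₀ a * d₀ b) • Y₀ a b‖ ^ 2), ⟨ht₀, c₀, d₀, ?_, ?_, ?_, ?_⟩,
    (hX.prodMk_nhds hT).prodMk_nhds k4⟩
  · rw [hX₀] at k1
    exact k1
  · rw [hX₀] at k2
    exact k2
  · rw [hX₀] at k3
    exact k3
  · rw [hY₀]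
    rfl

end CPP2

theorem hCPP (hI2J : StI2J) (hSM : Helper35.PI.StSM) (hNR : StNR) : StCPP := by
  intro n N M _ _ _ _ _ J F hF
  refine ⟨fun t₁ t₂ hJ => cpt hI2J hSM hNR hF t₁ t₂ hJ, ?_⟩
  · intro q t₀ ht₀ z hz
    obtain ⟨c, d, hc, hd, hcd, hzz⟩ := hz
    obtain ⟨hc1, hc2⟩ := cont hI2J hSM hF q ht₀
    have hpt : ContinuousAt (fun s : ℝ => ((chartAt (EE n) q q, s) : EE n × ℝ)) t₀ := by
      fun_prop
    have hXa : ∀ a, ContinuousAt (fun s : ℝ => dv1 (loc (n := n) F q s) (chartAt (EE n) q q) a)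
        t₀ := fun a => ContinuousAt.comp (f := fun s : ℝ => ((chartAt (EE n) q q, s) : EE n × ℝ))
          (g := fun z : EE n × ℝ => dv1 (loc (n := n) F q z.2) z.1 a) (hc1 a) hpt
    have hSa : ∀ a b, ContinuousAt
        (fun s : ℝ => sff (loc (n := n) F q s) (chartAt (EE n) q q) a b) t₀ := fun a b =>
      ContinuousAt.comp (f := fun s : ℝ => ((chartAt (EE n) q q, s) : EE n × ℝ))
          (g := fun z : EE n × ℝ => sff (loc (n := n) F q z.2) z.1 a b) (hc2 a b) hpt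
    -- continuity of `g_s` and `A_s` with varying coefficients
    have htv : ∀ v : ℝ → Fin n → ℝ, ContinuousAt v t₀ →
        ContinuousAt (fun s => tv F q s (v s)) t₀ := by
      intro v hv
      exact tendsto_finsetSum _ fun a _ =>
        (((continuous_apply a).continuousAt.comp hv : ContinuousAt (fun s => v s a) t₀)).smul
          (hXa a)
    have hAb : ∀ v w : ℝ → Fin n → ℝ, ContinuousAt v t₀ → ContinuousAt w t₀ →
        ContinuousAt (fun s => Ab F q s (v s) (w s)) t₀ := by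
      intro v w hv hw
      exact tendsto_finsetSum _ fun a _ => tendsto_finsetSum _ fun b _ =>
        ((((continuous_apply a).continuousAt.comp hv : ContinuousAt (fun s => v s a) t₀)).mul
          (((continuous_apply b).continuousAt.comp hw : ContinuousAt (fun s => w s b) t₀))).smul
          (hSa a b)
    have hgb : ∀ v w : ℝ → Fin n → ℝ, ContinuousAt v t₀ → ContinuousAt w t₀ →
        ContinuousAt (fun s => gb F q s (v s) (w s)) t₀ := fun v w hv hw =>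
      (htv v hv).inner (htv w hw)
    -- algebra of `g_s`
    have tsm : ∀ (s r : ℝ) (v : Fin n → ℝ), tv F q s (r • v) = r • tv F q s v := by
      intro s r v
      unfold tv
      rw [Finset.smul_sum]
      refine Finset.sum_congr rfl fun a _ => ?_
      rw [smul_smul]
      rfl
    have tsub : ∀ (s : ℝ) (v w : Fin n → ℝ), tv F q s (v - w) = tv F q s v - tv F q s w := by
      intro s v w
      unfold tv
      rw [← Finset.sum_sub_distrib]
      refine Finset.sum_congr rfl fun a _ => ?_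
      rw [← sub_smul]
      rfl
    have gsm : ∀ (s : ℝ) (u : Fin n → ℝ) (r : ℝ) (v : Fin n → ℝ),
        gb F q s u (r • v) = r * gb F q s u v := by
      intro s u r v
      unfold gb
      rw [tsm, real_inner_smul_right]
    have gsub : ∀ (s : ℝ) (u v : Fin n → ℝ) (r : ℝ) (w : Fin n → ℝ),
        gb F q s u (v - r • w) = gb F q s u v - r * gb F q s u w := by
      intro s u v r w
      unfold gb
      rw [tsub, tsm, inner_sub_right, real_inner_smul_right]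
    have hn2 : ∀ (s : ℝ) (v : Fin n → ℝ), 0 < gb F q s v v →
        gb F q s ((√(gb F q s v v))⁻¹ • v) ((√(gb F q s v v))⁻¹ • v) = 1 := by
      intro s v hv
      have h1 := Real.sq_sqrt hv.le
      have h2 : √(gb F q s v v) ≠ 0 := (Real.sqrt_pos.2 hv).ne'
      have h3 : gb F q s ((√(gb F q s v v))⁻¹ • v) ((√(gb F q s v v))⁻¹ • v)
          = (√(gb F q s v v))⁻¹ ^ 2 * gb F q s v v := by
        conv_lhs => unfold gb
        rw [tsm, real_inner_smul_left, real_inner_smul_right]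
        unfold gb
        ring
      rw [h3]
      nth_rewrite 2 [← h1]
      rw [← mul_pow, inv_mul_cancel₀ h2, one_pow]
    set cs : ℝ → Fin n → ℝ := fun s => (√(gb F q s c c))⁻¹ • c with hcs
    set es : ℝ → Fin n → ℝ := fun s => d - gb F q s (cs s) d • cs s with hes
    set ds : ℝ → Fin n → ℝ := fun s => (√(gb F q s (es s) (es s)))⁻¹ • es s with hds
    have hgc : ContinuousAt (fun s => gb F q s c c) t₀ :=
      hgb _ _ continuousAt_const continuousAt_const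
    have hcs0 : cs t₀ = c := by
      rw [hcs]
      simp only
      rw [hc, Real.sqrt_one, inv_one, one_smul]
    have hcsc : ContinuousAt cs t₀ := by
      refine ContinuousAt.smul (ContinuousAt.inv₀ (Real.continuous_sqrt.continuousAt.comp hgc) ?_)
        continuousAt_const
      simp only [Function.comp]
      rw [hc, Real.sqrt_one]
      exact one_ne_zero
    have hesc : ContinuousAt es t₀ :=
      continuousAt_const.sub ((hgb _ _ hcsc continuousAt_const).smul hcsc)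
    have hes0 : es t₀ = d := by
      rw [hes]
      simp only
      rw [hcs0, hcd, zero_smul, sub_zero]
    have hge : ContinuousAt (fun s => gb F q s (es s) (es s)) t₀ := hgb _ _ hesc hesc
    have hge0 : gb F q t₀ (es t₀) (es t₀) = 1 := by rw [hes0, hd]
    have hds0 : ds t₀ = d := by
      rw [hds]
      simp only
      rw [hge0, Real.sqrt_one, inv_one, one_smul, hes0]
    have hdsc : ContinuousAt ds t₀ := by
      refine ContinuousAt.smul (ContinuousAt.inv₀ (Real.continuous_sqrt.continuousAt.comp hge) ?_)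
        hesc
      simp only [Function.comp]
      rw [hge0, Real.sqrt_one]
      exact one_ne_zero
    refine ⟨fun s => ‖Ab F q s (cs s) (ds s)‖ ^ 2, (hAb cs ds hcsc hdsc).norm.pow 2, ?_, ?_⟩
    · simp only
      rw [hcs0, hds0, hzz]
    · have h1 : ∀ᶠ s in 𝓝 t₀, 0 < gb F q s c c :=
        hgc.eventually (lt_mem_nhds (by simp only; rw [hc]; exact one_pos))
      have h2 : ∀ᶠ s in 𝓝 t₀, 0 < gb F q s (es s) (es s) :=
        hge.eventually (lt_mem_nhds (by simp only; rw [hge0]; exact one_pos))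
      filter_upwards [h1, h2] with s a1 a2
      have a3 : gb F q s (cs s) (cs s) = 1 := hn2 s c a1
      refine ⟨cs s, ds s, a3, hn2 s (es s) a2, ?_, rfl⟩
      have a4 : gb F q s (cs s) (es s) = 0 := by
        have h5 := gsub s (cs s) d (gb F q s (cs s) d) (cs s)
        rw [a3, mul_one, sub_self] at h5
        exact h5
      have a5 := gsm s (cs s) (√(gb F q s (es s) (es s)))⁻¹ (es s)
      rw [a4, mul_zero] at a5
      exact a5

end Helper2.HC
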