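import Mathlib
import Pool.Agent.Helper35.HC.StF

/-!
Project HC (MP_925021_gt), module HFP: the heat operator of `|F - p|²`.
-/

set_option autoImplicit false

namespace Helper2.HC

open Helper35.HC Helper35.HSF Helper35.MS Helper35.PI Helper35.PI2 Helper32.CL
open scoped ContDiff Manifold Topology ENNReal BigOperators
open MeasureTheory Set Filter

theorem hHFP (hGCX : StGCX) (hC1 : Helper35.PI.StC1) (hSMF : StSMF) (hG0 : StG0) (hJA : StJA)
    (hJB : StJB) : StHFP := by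
  intro n N hn M _ _ _ J F hF p
  have hs : SmJ n J (fun q t => ‖F q t - p‖ ^ 2) :=
    (hSMF n N M J F hF.toIsImmJ).2.2.2.2.2.2.1 p
  refine ⟨hs, fun q t ht => ?_⟩
  obtain ⟨L, hL⟩ := hC1 n N _ (hF.imm q t ht)
  obtain ⟨u, θ, hG, hφ, -⟩ := hGCX n N M J F hF q t ht L hL
  obtain ⟨-, -, h1, -⟩ := hφ _ hs
  rw [← h1]
  have h2le : (2 : WithTop ℕ∞) ≤ ((⊤ : ℕ∞) : WithTop ℕ∞) := by
    have : ((2 : ℕ∞) : WithTop ℕ∞) ≤ ((⊤ : ℕ∞) : WithTop ℕ∞) := WithTop.coe_le_coe.2 le_top
    exact this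
  set Λ : EE n × ℝ →L[ℝ] EE N :=
    L.toContinuousLinearMap.comp (ContinuousLinearMap.fst ℝ (EE n) ℝ) with hΛ
  have hΛa : ∀ z : EE n × ℝ, Λ z = L z.1 := fun z => rfl
  have hu : ContDiffAt ℝ 2 u (0, t) := hG.sol.smooth.of_le h2le
  have hΛs : ContDiffAt ℝ 2 (fun z => Λ z) (0, t) := Λ.contDiff.contDiffAt
  have hcs : ContDiffAt ℝ 2 (fun _ : EE n × ℝ => F q t - p) (0, t) := contDiffAt_const
  obtain ⟨a1, a2, a3, -, -⟩ := hJA n (EE N) (0, t)
  -- derivatives of the linear part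
  have hΛg : ∀ z k, jg (fun z => Λ z) z k = L (ee k) := by
    intro z k
    unfold jg
    rw [show (fun z => Λ z) = (Λ : EE n × ℝ → EE N) from rfl, Λ.fderiv]
    rfl
  have hΛt : jt (fun z => Λ z) (0, t) = 0 := by
    unfold jt
    rw [show (fun z => Λ z) = (Λ : EE n × ℝ → EE N) from rfl, Λ.fderiv, hΛa, map_zero]
  have hΛh : jh (fun z => Λ z) (0, t) = 0 := by
    unfold jh jgg
    rw [hΛt]
    simp only [hΛg]
    rw [Finset.sum_eq_zero, sub_zero]
    intro k _
    exact (a2 (L (ee k))).1 k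
  -- the equation at the centre
  have huh : jh u (0, t) = 0 := by
    have h3 := hG.sol.pde.self_of_nhds
    simp only at h3
    unfold jh
    rw [h3, sub_eq_zero]
    refine Finset.sum_congr rfl fun i _ => ?_
    rw [Finset.sum_eq_single i]
    · have h4 := (hG0 n N _ L u t hG.sol i i).2.1
      rw [if_pos rfl] at h4
      unfold GIf at h4
      simp only at h4
      rw [h4, one_smul]
    · intro j _ hj
      have h4 := (hG0 n N _ L u t hG.sol i j).2.1
      rw [if_neg (Ne.symm hj)] at h4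
      unfold GIf at h4
      simp only at h4
      rw [h4, zero_smul]
    · intro h
      exact absurd (Finset.mem_univ i) h
  have b1 := a3 _ _ hcs hΛs
  have hcΛ : ContDiffAt ℝ 2 (fun z : EE n × ℝ => (F q t - p) + Λ z) (0, t) := hcs.add hΛs
  have b2 := a3 _ _ hcΛ hu
  have hψs : ContDiffAt ℝ 2 (fun z : EE n × ℝ => (F q t - p) + Λ z + u z) (0, t) := hcΛ.add hu
  have hψg : ∀ k, jg (fun z : EE n × ℝ => (F q t - p) + Λ z + u z) (0, t) k = L (ee k) := by
    intro k
    rw [b2.1 k, b1.1 k, (a2 _).1 k, hΛg, hG.sol.du0 k, zero_add, add_zero]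
  have hψh : jh (fun z : EE n × ℝ => (F q t - p) + Λ z + u z) (0, t) = 0 := by
    rw [b2.2.1, b1.2.1, (a2 _).2, hΛh, huh, zero_add, add_zero]
  have hev : (fun z : EE n × ℝ => ‖F (θ z) z.2 - p‖ ^ 2) =ᶠ[𝓝 ((0 : EE n), t)] fun z =>
      (inner ℝ ((F q t - p) + Λ z + u z) ((F q t - p) + Λ z + u z) : ℝ) := by
    filter_upwards [hG.eq] with z hz
    rw [hz, real_inner_self_eq_norm_sq]
    have h5 : grf (F q t) L u z.2 z.1 - p = (F q t - p) + Λ z + u z := by
      rw [hΛa]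
      unfold grf
      abel
    rw [h5]
  have hA := ((hJA n ℝ ((0 : EE n), t)).1 _ _ hev).2.2.2
  have hB := ((hJB n N ((0 : EE n), t)).2 _ _ hψs hψs).2
  rw [hA, hB, hψh]
  simp only [hψg]
  rw [inner_zero_left, inner_zero_right]
  have h6 : ∀ k : Fin n, (inner ℝ (L (ee k)) (L (ee k)) : ℝ) = 1 := by
    intro k
    rw [L.inner_map_map]
    simp only [ee, EuclideanSpace.inner_single_left, map_one, one_mul, PiLp.single_apply]
    simp
  simp only [h6]
  rw [Finset.sum_const, Finset.card_univ, Fintype.card_fin, nsmul_eq_mul]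
  ring

end Helper2.HC
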