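import Mathlib
import Pool.Agent.Helper35.HC.StB

/-!
Project HC (MP_925021_gt), module RPD: from the region to the situation in `ℝ^(n+3)`.
-/

set_option autoImplicit false

namespace Helper2.HC

open Helper35.HC Helper35.HSF Helper35.MS Helper35.PI Helper35.PI2 Helper32.CL
open scoped ContDiff Manifold Topology ENNReal BigOperators
open MeasureTheory Set Filter

theorem hRPD (hPRG : StPRG) (hPIA : StPIA) (hPBR : StPBR) (hSPJ : StSPJ) (hGCH : StGCH)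
    (hC1 : Helper35.PI.StC1) : StRPD := by
  intro n hn cK E D B c hHK M _ _ _ _ _ _ T F hS hT t₁ l₁ ht₁ hl0 hl1 hR hcase
  have hn1 : 1 ≤ n := by omega
  have hnR : (3 : ℝ) ≤ n := by exact_mod_cast hn
  have hTpos : 0 < T := ht₁.1.trans ht₁.2
  have hT1 : T ≤ 1 := by nlinarith
  have hF := hS.mcf
  have hI : IsImmJ (n := n) (Ioo 0 T) F := hF.toIsImmJ
  -- charts
  have hch : ∀ q, ∀ t ∈ Ioo 0 T, ∃ (L : EE n →ₗᵢ[ℝ] EE (n + 3)) (u : EE n × ℝ → EE (n + 3))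
      (θ : EE n × ℝ → M), GCh n F q t L u θ := by
    intro q t ht
    obtain ⟨L, hL⟩ := hC1 n (n + 3) _ (hF.imm q t ht)
    obtain ⟨u, θ, hG, -⟩ := hGCH n (n + 3) M (Ioo 0 T) F hF q t ht L hL
    exact ⟨L, u, θ, hG⟩
  have hHH : ∀ q, ∀ t ∈ Ioo 0 T, (n : ℝ) ^ 2 ≤ rr n t * ‖HH (n := n) F q t‖ ^ 2 := by
    intro q t ht
    obtain ⟨L, u, θ, hG⟩ := hch q t ht
    exact (hSPJ n hn1 M _ F hS q t ht L u θ hG _ _ rfl rfl).2.2.2.2.2.2.2.2.2.2.2.2.2
  have hrr1 : ∀ t ∈ Ioo 0 T, rr n t ≤ 1 := by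
    intro t ht
    unfold rr
    have := ht.1
    have : (0 : ℝ) ≤ 2 * n * t := by positivity
    linarith
  have hrr0 : ∀ t ∈ Ioo 0 T, 0 < rr n t := hS.r0
  have hY1 : ∀ t ∈ Ioo 0 T, ∀ q, 1 ≤ ‖HH (n := n) F q t‖ ^ 2 := by
    intro t ht q
    have h1 := hHH q t ht
    have h2 := hrr1 t ht
    have h3 := hrr0 t ht
    have h4 : (0 : ℝ) ≤ ‖HH (n := n) F q t‖ ^ 2 := by positivity
    nlinarith
  -- the region at later times
  set lam : ℝ → ℝ := fun t => l₁ * (rr n t / rr n t₁) ^ (1 / 200 : ℝ) with hlam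
  have hsub : ∀ t, t < T → Icc t₁ t ⊆ Ioo 0 T := fun t ht s hs =>
    ⟨ht₁.1.trans_le hs.1, hs.2.trans_lt ht⟩
  have hreg : ∀ t ∈ Ico t₁ T, RgN n cK E D B c (lam t) F t := by
    intro t ht
    exact hPRG n hn cK E D B c hHK M _ F hS t₁ t ht.1 (hsub t ht.2) l₁ hl0 hl1 hR t ⟨ht.1, le_rfl⟩
  have hin : ∀ t ∈ Ico t₁ T, t ∈ Ioo 0 T := fun t ht => ⟨ht₁.1.trans_le ht.1, ht.2⟩
  have hr₁ : 0 < rr n t₁ := hrr0 t₁ ht₁
  have hlamp : ∀ t ∈ Ico t₁ T, 0 < lam t := by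
    intro t ht
    have := hrr0 t (hin t ht)
    rw [hlam]
    positivity
  have hlam1 : ∀ t ∈ Ico t₁ T, lam t ≤ 1 := by
    intro t ht
    have h1 := hrr0 t (hin t ht)
    have h2 : rr n t ≤ rr n t₁ := by
      unfold rr
      have := ht.1
      nlinarith
    have h3 : rr n t / rr n t₁ ≤ 1 := (div_le_one hr₁).2 h2
    have h4 : (rr n t / rr n t₁) ^ (1 / 200 : ℝ) ≤ 1 :=
      Real.rpow_le_one (by positivity) h3 (by norm_num)
    have h5 : (0 : ℝ) ≤ (rr n t / rr n t₁) ^ (1 / 200 : ℝ) := by positivity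
    rw [hlam]
    simp only
    nlinarith
  obtain ⟨δ, l₀, hδ0, hδ1, hl₀, hPA⟩ := hPIA n hn cK E D B c hHK
  -- pinching
  have hpin : ∀ R : ℝ, 0 < R → ∃ κ₀ : ℝ, ∀ t ∈ Ico t₁ T, ∀ q,
      ∀ (L : EE n →ₗᵢ[ℝ] EE (n + 3)) (u : EE n × ℝ → EE (n + 3)) (θ : EE n × ℝ → M),
      GCh n F q t L u θ → (1 / rr n t ≤ R → PinA n κ₀ δ (jgg u (0, t))) ∧
        (lam t ≤ l₀ → ∀ κ₁ : ℝ, PinA n κ₁ δ (jgg u (0, t))) := by
    intro R hR0
    obtain ⟨κ₀, hκ⟩ := hPA R hR0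
    refine ⟨κ₀, ?_⟩
    intro t ht q L u θ hG
    have htJ := hin t ht
    obtain ⟨s1, -, s3, s4, s5, -, s7, -, -, -, s11, s12, -, -⟩ :=
      hSPJ n hn1 M _ F hS q t htJ L u θ hG _ _ rfl rfl
    have hrt := hrr0 t htJ
    refine hκ (jgg u (0, t)) (1 / rr n t) (lam t) L (F q t) s1 (by positivity)
      (by rw [s7, one_div_one_div]) s4 s3 s5 (hlamp t ht) (hlam1 t ht) ?_
    intro P Q hPQ
    have h1 := (hPBR n (n + 3) M _ F hI q t htJ L u θ hG _ _ rfl rfl).2.1 P Q hPQ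
    have h2 := hreg t ht q _ h1
    rw [s11, s12] at h2
    rw [div_div_eq_mul_div, div_one, mul_comm]
    exact h2
  rcases (by
    rcases lt_or_eq_of_le hT with h | h
    · exact Or.inl h
    · exact Or.inr h : 2 * n * T < 1 ∨ 2 * n * T = 1) with hlt | heq
  · -- the sphere does not shrink to a point
    have hrT : 0 < rr n T := by unfold rr; linarith
    obtain ⟨κ₀, hκ⟩ := hpin (1 / rr n T) (by positivity)
    have hP : ∀ t ∈ Ico t₁ T, ∀ q, ∀ (L : EE n →ₗᵢ[ℝ] EE (n + 3)) (u : EE n × ℝ → EE (n + 3))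
        (θ : EE n × ℝ → M), GCh n F q t L u θ → PinA n κ₀ δ (jgg u (0, t)) := by
      intro t ht q L u θ hG
      refine (hκ t ht q L u θ hG).1 ?_
      refine one_div_le_one_div_of_le hrT ?_
      unfold rr
      have := ht.2
      nlinarith
    refine ⟨t₁, κ₀, δ, ⟨hF, hT1, ht₁, hδ0, hδ1, hY1, hP, ?_⟩⟩
    have hunb := hcase.resolve_left hlt.ne
    intro C t₀ ht₀
    obtain ⟨t, htJ, htt, q, hq⟩ := hunb (2 * C) (max t₀ t₁) (max_lt ht₀ ht₁.2)
    refine ⟨t, htJ, (le_max_left _ _).trans_lt htt, q, ?_⟩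
    have ht : t ∈ Ico t₁ T := ⟨((le_max_right _ _).trans_lt htt).le, htJ.2⟩
    obtain ⟨L, u, θ, hG⟩ := hch q t htJ
    obtain ⟨-, -, -, -, -, -, -, s8, s9, -, -, -, -, -⟩ :=
      hSPJ n hn1 M _ F hS q t htJ L u θ hG _ _ rfl rfl
    have h1 := (hP t ht q L u θ hG).p1
    rw [s8] at hq
    rw [s9]
    have h2 : YY (jgg u (0, t)) = ‖Hv (jgg u (0, t))‖ ^ 2 := rfl
    rw [← h2]
    have h3 : (0 : ℝ) ≤ YY (jgg u (0, t)) := by rw [h2]; positivity
    unfold thA2 at h1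
    set X := XX (jgg u (0, t)) with hX
    set Y := YY (jgg u (0, t)) with hY
    have h4 : 2 * ((n : ℝ) - 1) / (n * (n + 2)) ≤ 1 := by
      rw [div_le_one (by positivity)]
      nlinarith
    have h5 : 0 ≤ 2 * ((n : ℝ) - 1) / (n * (n + 2)) :=
      div_nonneg (by linarith) (by positivity)
    have h6 : (1 - δ) * (2 * ((n : ℝ) - 1) / (n * (n + 2))) ≤ 1 := by nlinarith
    have h7 : (1 - δ) * (2 * ((n : ℝ) - 1) / (n * (n + 2))) * Y ≤ 1 * Y :=
      mul_le_mul_of_nonneg_right h6 h3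
    have h8 : Y / n ≤ Y := div_le_self h3 (by linarith)
    linarith
  · -- the sphere shrinks to a point
    have hrT : rr n T = 0 := by unfold rr; linarith
    have hrc : Continuous (fun t => rr n t) := by
      unfold rr
      fun_prop
    have hlc : Tendsto lam (𝓝 T) (𝓝 0) := by
      have h1 : Tendsto (fun t => rr n t / rr n t₁) (𝓝 T) (𝓝 0) := by
        have := (hrc.tendsto T).div_const (rr n t₁)
        rwa [hrT, zero_div] at this
      have h2 : Tendsto (fun x : ℝ => x ^ (1 / 200 : ℝ)) (𝓝 0) (𝓝 0) := by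
        have := (Real.continuous_rpow_const (q := (1 / 200 : ℝ)) (by norm_num)).tendsto 0
        rwa [Real.zero_rpow (by norm_num)] at this
      have h3 := (h2.comp h1).const_mul l₁
      rwa [mul_zero] at h3
    obtain ⟨ε, hε, hε'⟩ := Metric.eventually_nhds_iff.1 (hlc.eventually (gt_mem_nhds hl₀))
    obtain ⟨κ₀, hκ⟩ := hpin 1 one_pos
    have hts : max t₁ (T - ε / 2) ∈ Ico t₁ T := ⟨le_max_left _ _, max_lt ht₁.2 (by linarith)⟩
    refine ⟨max t₁ (T - ε / 2), 0, δ, ⟨hF, hT1, hin _ hts, hδ0, hδ1, hY1, ?_, ?_⟩⟩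
    · intro t ht q L u θ hG
      have h1 : t ∈ Ico t₁ T := ⟨(le_max_left _ _).trans ht.1, ht.2⟩
      refine (hκ t h1 q L u θ hG).2 ?_ 0
      have h2 : T - ε / 2 ≤ t := (le_max_right _ _).trans ht.1
      refine (hε' ?_).le
      rw [Real.dist_eq, abs_lt]
      have := ht.2
      constructor <;> linarith
    · intro C t₀ ht₀
      have h1 : Tendsto (fun t => rr n t * C) (𝓝 T) (𝓝 0) := by
        have := (hrc.tendsto T).mul_const C
        rwa [hrT, zero_mul] at this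
      have h2 : ∀ᶠ t in 𝓝 T, rr n t * C < (n : ℝ) ^ 2 :=
        h1.eventually (gt_mem_nhds (by positivity))
      have h3 : ∀ᶠ t in 𝓝[<] T, rr n t * C < (n : ℝ) ^ 2 := h2.filter_mono nhdsWithin_le_nhds
      have h4 : ∀ᶠ t in 𝓝[<] T, t ∈ Ioo (max t₀ t₁) T :=
        Ioo_mem_nhdsLT (max_lt ht₀ ht₁.2)
      obtain ⟨t, h5, h6⟩ := (h3.and h4).exists
      have htJ : t ∈ Ioo 0 T := ⟨ht₁.1.trans ((le_max_right _ _).trans_lt h6.1), h6.2⟩
      refine ⟨t, htJ, (le_max_left _ _).trans_lt h6.1, Classical.arbitrary M, ?_⟩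
      have h7 := hHH (Classical.arbitrary M) t htJ
      have h8 := hrr0 t htJ
      by_contra hcon
      push Not at hcon
      have h9 := mul_le_mul_of_nonneg_left hcon h8.le
      linarith

end Helper2.HC
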